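import Pool.Agent.T44.GA.Sh

/-!
# One family: linear independence of the values at `z = a / (t - g)`, uniformly in `a`
-/

set_option autoImplicit false
set_option maxHeartbeats 400000

open PowerSeries Pool.Agent.Y113 Pool.Agent.Y120.GF Pool.Agent.Y120.GH Pool.Agent.Y118.UL

namespace Pool.Agent.T44.GA

theorem pair_ge (c : ℕ) : ∀ u g : ℕ, g + (u + 1) * c ≤ Nat.pair u g + (c + 1) ^ 2 := by
  intro u g
  unfold Nat.pair
  split_ifs with h
  · rcases Nat.lt_or_ge c g with h1 | h1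
    · have h2 : (u + 1) * c ≤ g * c := Nat.mul_le_mul_right _ h
      have h3 : g * (c + 1) ≤ g * g := Nat.mul_le_mul_left _ h1
      nlinarith
    · have h2 : (u + 1) * c ≤ c * c := Nat.mul_le_mul_right _ (by omega)
      nlinarith
  · rcases Nat.lt_or_ge u c with h1 | h1
    · have h2 : (u + 1) * c ≤ c * c := Nat.mul_le_mul_right _ h1
      nlinarith
    · have h2 : (u + 1) * c ≤ (u + 1) * u := Nat.mul_le_mul_left _ h1
      nlinarith

theorem aeval_scp (a : ℕ) (P : Polynomial ℤ) (x : ℝ) : Polynomial.aeval x (scp a P) = Polynomial.aeval ((a : ℝ) * x) P := by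
  unfold scp
  rw [Polynomial.aeval_comp]
  simp

/-- the denominators do not vanish -/
theorem Tg_neA {T : Polynomial ℤ} (hT : T ≠ 0) {q : ℕ} (hq : T.natDegree ≤ q) : ∃ c : ℕ, ∀ u g t : ℕ,
    Nat.pair u g + c < t → Polynomial.aeval (1 / (t : ℝ)) (Tg q (scp (u + 1) T) g) ≠ 0 := by
  obtain ⟨c, hc⟩ := no_roots hT
  refine ⟨(c + 1) ^ 2 + 1, fun u g t h => ?_⟩
  have h0 := pair_ge c u g
  have h00 : g + (u + 1) * c + 1 < t := by omega
  have htR : ((g : ℝ) + (u + 1) * c + 1) < t := by exact_mod_cast h00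
  have hg0 : (0 : ℝ) ≤ g := by positivity
  have hc0 : (0 : ℝ) ≤ ((u : ℝ) + 1) * c := by positivity
  have ht0 : (0 : ℝ) < t := by linarith
  have h1 : (1 : ℝ) - g * (1 / t) ≠ 0 := by
    have : (g : ℝ) * (1 / t) < 1 := by
      rw [mul_one_div, div_lt_one ht0]
      linarith
    linarith
  rw [Tg, map_mul, map_mul, map_pow, aeval_Pg, aeval_Hm g ((deg_scp _ _).trans hq) h1]
  refine mul_ne_zero (mul_ne_zero (pow_ne_zero _ h1) (mul_ne_zero (pow_ne_zero _ h1) ?_)) (TL_ne g t (by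
    have : 0 ≤ (u + 1) * c := Nat.zero_le _
    omega))
  have h3 : (t : ℝ) - g ≠ 0 := by linarith
  have hu : ((u : ℝ) + 1) ≠ 0 := by positivity
  have h2 : ((u + 1 : ℕ) : ℝ) * ((1 : ℝ) / t / (1 - g * (1 / t))) = 1 / ((t - g) / (u + 1)) := by
    have h4 : (1 : ℝ) - g * (1 / t) = (t - g) / t := by field_simp
    rw [h4]
    push_cast
    field_simp
  rw [aeval_scp, h2]
  refine hc _ ?_
  rw [lt_div_iff₀ (by positivity)]
  linarith

/-- the values, uniformly in the scaling -/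
theorem liA {κ : Type} [Fintype κ] {q n : ℕ} {C : ℝ} {T : Polynomial ℤ} {y : κ → ℚ⟦X⟧} (h : GSys q C T y) (hT : T ≠ 0)
    {b₀ : κ} (hb₀ : y b₀ = 1) (N : ℕ) :
    ∃ E : ℕ, ∀ H t a : ℕ, 1 ≤ a → (H + a + 2) ^ E ≤ t → ∀ g : Fin N → ℕ, (∀ l, g l ≤ H) →
      LinearIndependent (Polynomial ℚ) (fun b : Fin N → κ × Fin (n + 1) => ∏ l, Fg (n + 1) (fun i => sc a (y i)) (g l) (b l)) →
      LinearIndependent ℚ (fun b : Fin N → κ × Fin (n + 1) =>
        ∏ l, ev (t : ℝ) (Fg (n + 1) (fun i => sc a (y i)) (g l) (b l))) := by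
  classical
  obtain ⟨q₀, E₀, hU⟩ := gsys_FgU q n
  obtain ⟨c, hc⟩ := Tg_neA hT h.degT
  obtain ⟨e, he⟩ : ∃ e : ℕ, 2 * C ≤ 2 ^ e := by
    obtain ⟨e, he⟩ := pow_unbounded_of_one_lt (2 * C) (one_lt_two)
    exact ⟨e, he.le⟩
  have hC := h.one_le
  obtain ⟨E, hE⟩ := liR (F := fun m => Fg (n + 1) (fun i => sc ((Nat.unpair m).1 + 1) (y i)) (Nat.unpair m).2)
    (Tg := fun m => Tg q (scp ((Nat.unpair m).1 + 1) T) (Nat.unpair m).2) (q₀ := q₀) (E₀ := (e + (q + 2)) * E₀) (c := c)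
    (b₀ := (b₀, (0 : Fin (n + 1)))) (by
      intro m
      show sf _ (sc _ (y b₀)) * yQ _ ((0 : Fin (n + 1)) : ℕ) = 1
      rw [hb₀, map_one]
      have h1 : sf (Nat.unpair m).2 1 = 1 := by
        have := sf_nat (Nat.unpair m).2 1
        simpa using this
      rw [h1, one_mul]
      exact yQ_nil _) (by
      intro m
      have h1 := hU κ _ _ _ (gsys_sc h (a := (Nat.unpair m).1 + 1) (by omega)) (Nat.unpair m).2
      refine h1.mono le_rfl ?_
      rw [pow_mul]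
      refine pow_le_pow_left₀ (by positivity) ?_ _
      have h2 : (((Nat.unpair m).1 + 1 : ℕ) : ℝ) ≤ (m : ℝ) + 2 := by
        have := Nat.unpair_left_le m
        exact_mod_cast (by omega : (Nat.unpair m).1 + 1 ≤ m + 2)
      have h3 : (((Nat.unpair m).2 : ℕ) : ℝ) + 2 ≤ (m : ℝ) + 2 := by
        have := Nat.unpair_right_le m
        exact_mod_cast (by omega : (Nat.unpair m).2 + 2 ≤ m + 2)
      have h4 : 2 * C ≤ ((m : ℝ) + 2) ^ e := he.trans (pow_le_pow_left₀ (by norm_num) (by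
        have : (0 : ℝ) ≤ m := by positivity
        linarith) _)
      have h5 : (((Nat.unpair m).1 + 1 : ℕ) : ℝ) ^ (q + 1) ≤ ((m : ℝ) + 2) ^ (q + 1) := pow_le_pow_left₀ (by positivity) h2 _
      calc 2 * ((((Nat.unpair m).1 + 1 : ℕ) : ℝ) ^ (q + 1) * C) * ((((Nat.unpair m).2 : ℕ) : ℝ) + 2) =
          (2 * C) * ((((Nat.unpair m).1 + 1 : ℕ) : ℝ) ^ (q + 1) * ((((Nat.unpair m).2 : ℕ) : ℝ) + 2)) := by ring
        _ ≤ ((m : ℝ) + 2) ^ e * (((m : ℝ) + 2) ^ (q + 1) * ((m : ℝ) + 2)) := by gcongr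
        _ = _ := by ring) (by
      intro m t hmt
      refine hc _ _ _ ?_
      rwa [Nat.pair_unpair]) N
  refine ⟨2 * E, fun H t a ha ht g hg hli => ?_⟩
  have hidx : ∀ l, Nat.pair (a - 1) (g l) ≤ (H + a) ^ 2 := by
    intro l
    refine (Nat.pair_lt_max_add_one_sq _ _).le.trans ?_
    refine Nat.pow_le_pow_left ?_ 2
    have := hg l
    have : max (a - 1) (g l) ≤ H + a - 1 := by omega
    omega
  have ht' : ((H + a) ^ 2 + 2) ^ E ≤ t := by
    refine le_trans ?_ ht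
    rw [pow_mul]
    refine Nat.pow_le_pow_left ?_ _
    have h9 : (H + a + 2) ^ 2 = (H + a) ^ 2 + 4 * (H + a) + 4 := by ring
    omega
  have h1 := hE ((H + a) ^ 2) t ht' (fun l => Nat.pair (a - 1) (g l)) hidx
  have h2 : ∀ l, (Nat.unpair (Nat.pair (a - 1) (g l))).1 + 1 = a := fun l => by
    rw [Nat.unpair_pair]
    show a - 1 + 1 = a
    omega
  have h3 : ∀ l, (Nat.unpair (Nat.pair (a - 1) (g l))).2 = g l := fun l => by
    rw [Nat.unpair_pair]
  simp only [h2, h3] at h1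
  exact h1 hli

theorem famA {r : ℕ} {h : Fin r → ℚ⟦X⟧} {T : Polynomial ℤ} {A : Fin r → Fin r → Polynomial ℤ} (hT : T ≠ 0)
    (hode : ∀ i, ps T * d⁄dX ℚ (h i) = ∑ j, ps (A i j) * h j) {q : ℕ} {C : ℝ} (hG : GSys q C T h) (hqu : QU0 T A) :
    ∃ R : ℕ, ∀ (δ : ℕ) (B₀ : Finset (Fin δ → Option (Fin r))), (fun _ => none) ∈ B₀ →
      (∀ g : (Fin δ → Option (Fin r)) → Polynomial ℚ, ∑ i ∈ B₀, (g i : ℚ⟦X⟧) * yw h i = 0 → ∀ i ∈ B₀, g i = 0) →
      ∃ B : Finset (Fin δ → Option (Fin r)), B₀ ⊆ B ∧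
        (∃ C : ℝ, 1 ≤ C ∧ ∀ (b : Fin δ → Option (Fin r)) m, |((coeff m (yw h b : ℚ⟦X⟧) : ℚ) : ℝ)| ≤ C ^ (m + 1)) ∧
        ∀ N : ℕ, ∃ E : ℕ, ∀ H t a : ℕ, 1 ≤ a → (H + a + 2) ^ E ≤ t →
        ∀ g : Fin N → ℕ, SepR (a * R) g → (∀ l, g l ≤ H) → LinearIndependent ℚ (fun b : Fin N → B × Fin (δ + 1) =>
          ∏ l, ev (t : ℝ) (Fg (δ + 1) (fun β : B => sc a (yw h β.1)) (g l) (b l))) := by
  classical
  obtain ⟨Ch, hCh⟩ : ∃ C : ℝ, ∀ i m, |((coeff m (h i) : ℚ) : ℝ)| ≤ C ^ (m + 1) := ⟨C, hG.size⟩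
  obtain ⟨e, he, M₀, K, Φ, hΦc, hΦe, hΦd⟩ := hqu
  -- the radii
  set τ : ℝ := |K| + |Ch| + 1 with hτd
  have hτ1 : 1 ≤ τ := by
    have := abs_nonneg K
    have := abs_nonneg Ch
    linarith
  have hτ0 : 0 < τ := by linarith
  have hτe : τ ≤ τ ^ e := le_self_pow₀ hτ1 he
  set τ' : ℝ := τ + 1 with hτ'd
  have hρρ : τ ^ e < τ' ^ e := pow_lt_pow_left₀ (by linarith) hτ0.le he
  obtain ⟨R, hR⟩ := exists_nat_gt (τ ^ e + τ' ^ e)
  refine ⟨R, fun δ B₀ hb₀ h0 => ?_⟩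
  obtain ⟨C', hG'⟩ := gsys_tens (gsys_opt hG) δ
  have hyw : (fun b : Fin δ → Option (Fin r) => ∏ j, (fun o : Option (Fin r) => o.elim 1 h) (b j)) = fun b => yw h b := rfl
  rw [hyw] at hG'
  have hone : yw h (fun _ : Fin δ => none) = 1 := by
    unfold yw
    exact Finset.prod_eq_one fun j _ => rfl
  obtain ⟨B, hBB, hLI, aP, M, haP, hM⟩ := max_li' (fun b : Fin δ → Option (Fin r) => yw h b) B₀ h0
  refine ⟨B, hBB, ⟨C', hG'.one_le, hG'.size⟩, fun N => ?_⟩
  obtain ⟨q', C'', hG''⟩ := gsys_sub hG' (fun β : B => yw h β.1) (fun β => β.1) (fun β => rfl) aP M hM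
  have hmem1 : ∀ i, cx (h i) ∈ Cw (τ ^ e) := fun i =>
    Cw_mono (by
      have := abs_nonneg K
      linarith) (cx_mem (abs_nonneg Ch) fun m => (hCh i m).trans (by
        rw [← abs_pow]
        exact le_abs_self _))
  have hmem : ∀ b : Fin δ → Option (Fin r), cx (yw h b : ℚ⟦X⟧) ∈ Cw (τ ^ e) := by
    intro b
    unfold yw
    rw [map_prod]
    refine Subring.prod_mem _ fun j _ => ?_
    rcases b j with _ | i
    · show cx 1 ∈ _
      rw [map_one]
      exact Subring.one_mem _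
    · exact hmem1 i
  set Tc : Polynomial ℂ := T.map (Int.castRingHom ℂ) with hTc
  set Ac : Fin r → Fin r → Polynomial ℂ := fun i j => (A i j).map (Int.castRingHom ℂ) with hAc
  have hTc0 : Tc ≠ 0 := (Polynomial.map_ne_zero_iff (Int.castRingHom ℂ).injective_int).2 hT
  have hQU : QU he τ Tc (AT (δ := δ) (A1 Ac)) := by
    refine qu_tens he δ (qu_one he ⟨M₀, Φ, fun i j k => mem_Cw_of_bound ?_ (hΦc i j k), hΦe, hΦd⟩)
    have := abs_nonneg Ch
    linarith
  -- the differential equation of the products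
  have hodeC : ∀ i, (Tc : PowerSeries ℂ) * PowerSeries.derivative ℂ (cx (h i)) = ∑ j, (Ac i j : PowerSeries ℂ) * cx (h j) := by
    intro i
    have h1 := congrArg cx (hode i)
    rw [map_mul, map_sum, cx_der, cx_ps] at h1
    rw [h1]
    refine Finset.sum_congr rfl fun j _ => ?_
    rw [map_mul, cx_ps]
  have hodeT : ∀ b : Fin δ → Option (Fin r), (Tc : PowerSeries ℂ) * PowerSeries.derivative ℂ (cx (yw h b)) =
      ∑ b', ((AT (δ := δ) (A1 Ac) b b' : Polynomial ℂ) : PowerSeries ℂ) * cx (yw h b') := by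
    intro b
    have h1 := tens_der (δ := δ) (fun f : PowerSeries ℂ => PowerSeries.derivative ℂ f) (Derivation.map_one_eq_zero _)
      (fun f g => by
        rw [Derivation.leibniz]
        rfl) (Tc : PowerSeries ℂ) 0
      (fun i l : Option (Fin r) => ((A1 Ac i l : Polynomial ℂ) : PowerSeries ℂ))
      (fun _ o => cx (o.elim 1 h)) (fun j o => by
        rw [zero_mul, zero_add, Fintype.sum_option]
        rcases o with _ | i
        · show _ * PowerSeries.derivative ℂ (cx 1) = ((0 : Polynomial ℂ) : PowerSeries ℂ) * _ +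
            ∑ j, ((0 : Polynomial ℂ) : PowerSeries ℂ) * _
          rw [map_one, Derivation.map_one_eq_zero]
          simp
        · show _ = ((0 : Polynomial ℂ) : PowerSeries ℂ) * _ + ∑ j, (Ac i j : PowerSeries ℂ) * cx (h j)
          rw [← hodeC i]
          simp) b
    have h2 : ∀ b : Fin δ → Option (Fin r), cx (yw h b) = ∏ j, cx ((b j).elim 1 h) := fun b => map_prod _ _ _
    rw [h2 b]
    refine h1.trans ?_
    rw [mul_zero, zero_mul, zero_add]
    refine Finset.sum_congr rfl fun b' _ => ?_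
    rw [h2 b']
    congr 1
    let f : Polynomial ℂ →+ PowerSeries ℂ := (Polynomial.coeToPowerSeries.ringHom (R := ℂ)).toAddMonoidHom
    exact (AT_map f (A1 Ac) b b').symm
  have hdisc : Disc (τ ^ e) (τ' ^ e) fun b : (B : Set (Fin δ → Option (Fin r))) => cx (yw h b.1) :=
    disc_of_qu he hτ0 (by linarith) (fun b => cx (yw h b)) hmem Tc hTc0 _ hodeT hQU
      (B : Set (Fin δ → Option (Fin r))) (by
      intro G hG
      refine li_cx (κ := (B : Set (Fin δ → Option (Fin r)))) ?_ G hG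
      exact hLI)
  obtain ⟨E₁, hE₁⟩ := liA (n := δ) hG'' (mul_ne_zero haP hT) (b₀ := (⟨fun _ => none, hBB hb₀⟩ : B)) hone N
  refine ⟨E₁, fun H t a ha hHt g hg hgH => hE₁ H t a ha hHt g hgH ?_⟩
  have ha0 : (0 : ℝ) < a := by exact_mod_cast ha
  have hGa := gsys_sc hG'' ha
  have hcast : ((a * R : ℕ) : ℝ) = (a : ℝ) * R := by push_cast; ring
  refine li_shift (ρ := a * τ ^ e) (ρ' := a * τ' ^ e) (C := (a : ℝ) ^ (q' + 1) * C'') (y := fun β : B => sc a (yw h β.1))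
    (by positivity) (mul_lt_mul_of_pos_left hρρ ha0)
    (by have := hGa.one_le; linarith) (fun β => cx_sc_mem ha (hmem _)) (disc_sc ha hdisc) hGa.size
    (fun g => ⟨_, by have := hG''.one_le; positivity, (gsys_shiftK hGa g).size⟩) (R := (a : ℝ) * R) (by
      rw [← mul_add]
      exact mul_lt_mul_of_pos_left hR ha0) (δ + 1) N g (fun l => by
      rw [← hcast]
      exact_mod_cast hg.1 l) fun l l' hl => ?_
  rcases hg.2 l l' hl with h1 | h1
  · have h2 : (g l : ℝ) + (a : ℝ) * R ≤ g l' := by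
      rw [← hcast]
      exact_mod_cast h1
    rw [abs_sub_comm]
    exact le_trans (by linarith) (le_abs_self _)
  · have h2 : (g l' : ℝ) + (a : ℝ) * R ≤ g l := by
      rw [← hcast]
      exact_mod_cast h1
    exact le_trans (by linarith) (le_abs_self _)

end Pool.Agent.T44.GA
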