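import Pool.Agent.T44.GA.Gm
import Pool.Agent.T44.GL.Mn

/-!
# Rational fibres near a degenerate fibre with few periods: the theorem
-/

set_option autoImplicit false
set_option linter.unusedSectionVars false

open PowerSeries

namespace Pool.Agent.T44.GA

open Pool.Agent.Y113 (ps SDc ev)
open Pool.Agent.Y120.GF Pool.Agent.Y120.GH Pool.Agent.Y124.TL Pool.Agent.Y119.HZ Pool.Agent.T44.GF Pool.Agent.T44.EF
open Pool.Agent.TH127.PT Pool.Agent.Y123.ST Pool.Agent.Y123.SR Pool.Agent.TH119.DR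
open Pool.Agent.Y123.GN (EG Perf)
open Pool.Agent.Y119.HY (E Ep Ep_eval E_add E_zero E_mul_neg)
open Pool.Agent.T44.GL

variable {n k : ℕ}

/-- **all tuples in windows** -/
theorem gen_allA (hNo : S_NORM) {T : Polynomial ℤ} {A : Fin n → Fin n → Polynomial ℤ} {N : Matrix (Fin n) (Fin n) ℤ}
    {Z W : Matrix (Fin n) (Fin n) ℚ⟦X⟧} (h : DatL T A N Z W) :
    ∃ x₁ R : ℕ, 1 ≤ x₁ ∧ ∀ x₀ : ℕ, x₁ ≤ x₀ → ∀ δ D k : ℕ, ∃ E₀ : ℕ, ∀ H t a : ℕ, 1 ≤ a → (H + a + 2) ^ E₀ ≤ t →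
      H < t ∧ ∀ g : Fin k → ℕ, SepR (a * R) g → (∀ l, g l ≤ H) →
      (∀ l, (x₀ : ℝ) < ((t - g l : ℕ) : ℝ) / a) ∧ ∀ Ω Θ : Matrix (Fin n) (Fin n) ℂ, Θ * Ω = 1 →
        ∀ 𝒩 : Set (Matrix (Fin n) (Fin n) ℂ), (∀ N' ∈ 𝒩, IsNilpotent N') →
        (∀ N' ∈ 𝒩, ∀ t : ℂ, GalL Ω (N.map (Int.castRingHom ℂ)) Z x₀ (IsNilpotent.exp (t • N'))) →
        GenG (EG 𝒩) (Ω * E (N.map (Int.castRingHom ℂ)) (-((Real.log ((t : ℝ) / a) : ℝ) : ℂ)))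
          (E (N.map (Int.castRingHom ℂ)) ((Real.log ((t : ℝ) / a) : ℝ) : ℂ) * Θ)
          (fun l => E (N.map (Int.castRingHom ℂ)) (-((Real.log (1 - g l / t) : ℝ) : ℂ)) * Zm Z (((t - g l : ℕ) : ℝ) / a)) δ D := by
  have hNn : (N.map (Int.castRingHom ℂ)) ^ n = 0 := by
    have h1 := map_pow (RingHom.mapMatrix (Int.castRingHom ℂ)) N n
    rw [h.nil, map_zero] at h1
    exact h1.symm
  obtain ⟨x₁, R, hx₁, hmain⟩ := ratQLA h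
  refine ⟨x₁, R, hx₁, fun x₀ hx₀ δ D k => ?_⟩
  obtain ⟨δ', hδ'⟩ := hNo D δ
  obtain ⟨E₀, hE⟩ := hmain x₀ hx₀ δ' k
  refine ⟨E₀, fun H t a ha ht => ?_⟩
  obtain ⟨hHt, h1⟩ := hE H t a ha ht
  refine ⟨hHt, fun g hg hgH => ?_⟩
  obtain ⟨h2, h3⟩ := h1 g hg hgH
  refine ⟨h2, fun Ω Θ hΘ 𝒩 hnil hgal K hK hKD P hP hd h0 γ hγ => ?_⟩
  set Nc : Matrix (Fin n) (Fin n) ℂ := N.map (Int.castRingHom ℂ) with hNc
  set Ωt : Matrix (Fin n) (Fin n) ℂ := Ω * E Nc (-((Real.log ((t : ℝ) / a) : ℝ) : ℂ)) with hΩt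
  set Θt : Matrix (Fin n) (Fin n) ℂ := E Nc ((Real.log ((t : ℝ) / a) : ℝ) : ℂ) * Θ with hΘt
  have hΘΩt : Θt * Ωt = 1 := by
    calc Θt * Ωt = E Nc ((Real.log ((t : ℝ) / a) : ℝ) : ℂ) * (Θ * Ω) * E Nc (-((Real.log ((t : ℝ) / a) : ℝ) : ℂ)) := by
          rw [hΘt, hΩt]
          simp only [Matrix.mul_assoc]
      _ = 1 := by rw [hΘ, Matrix.mul_one, E_mul_neg hNn]
  set y : Fin k → Matrix (Fin n) (Fin n) ℂ := fun l => E Nc (-((Real.log (1 - g l / t) : ℝ) : ℂ)) *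
    Zm Z (((t - g l : ℕ) : ℝ) / a) with hy
  refine hδ' (Fin k × (Fin n × Fin n)) (cf y) {z | ∃ γ : Fin k → Matrix (Fin n) (Fin n) ℂ, (∀ l, γ l ∈ EG 𝒩) ∧
    z = cf fun l => Θt * γ l * Ωt * y l} ⟨fun _ => 1, fun _ => Submonoid.one_mem _, ?_⟩ ?_ ?_ K hK hKD P hP hd h0 _
      ⟨γ, hγ, rfl⟩
  · congr 1
    funext l
    rw [Matrix.mul_one, hΘΩt, Matrix.one_mul]
  · intro P Q hPQ
    rcases irrG hnil Ωt Θt y P Q (fun g hg => hPQ _ ⟨g, hg, rfl⟩) with h4 | h4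
    · left
      rintro _ ⟨g, hg, rfl⟩
      exact h4 g hg
    · right
      rintro _ ⟨g, hg, rfl⟩
      exact h4 g hg
  · rintro P hP hd h0 _ ⟨g', hg', rfl⟩
    exact h3 P hP hd h0 Ω Θ hΘ g' fun l => galL_EG hgal (hg' l)


/-- **the theorem** -/
theorem mainA (hA : S_ABS) (hNo : S_NORM) {T : Polynomial ℤ} {A : Fin n → Fin n → Polynomial ℤ}
    {N : Matrix (Fin n) (Fin n) ℤ} {Z W : Matrix (Fin n) (Fin n) ℚ⟦X⟧} (h : DatL T A N Z W) :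
    ∃ x₁ R : ℕ, 1 ≤ x₁ ∧ ∀ x₀ : ℕ, x₁ ≤ x₀ → ∀ k D r s C : ℕ, ∃ E₀ : ℕ, ∀ H t a : ℕ, 1 ≤ a → (H + a + 2) ^ E₀ ≤ t → H < t ∧
      ∀ g : Fin k → ℕ, SepR (a * R) g → (∀ l, g l ≤ H) →
      (∀ l, (x₀ : ℝ) < ((t - g l : ℕ) : ℝ) / a) ∧ (∀ l, IsUnit (Zm Z (((t - g l : ℕ) : ℝ) / a)).det) ∧
      ∀ (B₀ : Type) [Fintype B₀] [DecidableEq B₀], Fintype.card B₀ = r → ∀ C₀ : Matrix B₀ B₀ ℂ, IsUnit C₀.det →
      ∀ Ω Θ : Matrix (Fin n) (Fin n) ℂ, Ω * Θ = 1 → Θ * Ω = 1 → ∀ 𝒱 : Submodule ℚ ℂ, 𝒱.FG →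
      (∀ e, Module.finrank ℚ (𝒱 ^ e : Submodule ℚ ℂ) ≤ C * (e + 1) ^ s) → (∀ i j, C₀⁻¹ i j ∈ 𝒱) →
      (∀ i j, (Pool.Agent.Y119.HY.E (N.map (Int.castRingHom ℂ)) ((Real.log ((t : ℝ) / a) : ℝ) : ℂ) * Θ) i j ∈ 𝒱) →
      ∀ K : Subfield ℂ, FiniteDimensional ℚ K → Module.finrank ℚ K ≤ D →
      ∀ 𝒩 : Set (Matrix (Fin n) (Fin n) ℂ), (∀ N' ∈ 𝒩, IsNilpotent N') →
      (∀ N' ∈ 𝒩, ∀ t : ℂ, GalL Ω (N.map (Int.castRingHom ℂ)) Z x₀ (IsNilpotent.exp (t • N'))) → Perf 𝒩 → NoSub s 𝒩 →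
      ∀ T : Set (Matrix (I2 B₀ n k) (I2 B₀ n k) ℂ), IsSubtorsor K T →
      E2 C₀ (fun l => PL Ω (N.map (Int.castRingHom ℂ)) Z (((t - g l : ℕ) : ℝ) / a)) ∈ T →
      ∀ γ : Fin k → Matrix (Fin n) (Fin n) ℂ, (∀ l, γ l ∈ EG 𝒩) → ∀ x ∈ T, E2 1 γ * x ∈ T := by
  classical
  have hNn : (N.map (Int.castRingHom ℂ)) ^ n = 0 := by
    have h1 := map_pow (RingHom.mapMatrix (Int.castRingHom ℂ)) N n
    rw [h.nil, map_zero] at h1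
    exact h1.symm
  obtain ⟨x₂, R, hx₂, hmain⟩ := gen_allA hNo h
  obtain ⟨x₁, hx₁⟩ := zm_unitL h
  refine ⟨x₂, R, hx₂, fun x₀ hx₀ k D r s C => ?_⟩
  obtain ⟨𝒟, h𝒟⟩ := hA (r + n * k)
  obtain ⟨E₀, hE⟩ := hmain x₀ hx₀ (dlt C s (r + n * k) 𝒟) D k
  refine ⟨E₀ + (x₁ + 1), fun H t a ha ht => ?_⟩
  have ha0 : (0 : ℝ) < a := by exact_mod_cast ha
  have hpos : 0 < H + a + 2 := by omega
  have hE' : (H + a + 2) ^ E₀ ≤ t := le_trans (Nat.pow_le_pow_right hpos (by omega)) ht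
  obtain ⟨hHt, h1⟩ := hE H t a ha hE'
  refine ⟨hHt, fun g hg hgH => ?_⟩
  obtain ⟨h2, h3⟩ := h1 g hg hgH
  have hx₁t : ∀ l, a * x₁ < t - g l := by
    intro l
    have h4 : (H + a + 2) ^ (x₁ + 1) ≤ t := le_trans (Nat.pow_le_pow_right hpos (by omega)) ht
    have h5 : H + a * x₁ < (H + a + 2) ^ (x₁ + 1) := by
      have h6 : x₁ < 2 ^ x₁ := Nat.lt_two_pow_self
      have h7 : 2 ^ x₁ ≤ (H + a + 2) ^ x₁ := Nat.pow_le_pow_left (by omega) _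
      have h8 : (x₁ + 1) * (H + a + 2) ≤ (H + a + 2) ^ (x₁ + 1) := by
        rw [pow_succ]
        exact Nat.mul_le_mul_right _ (by omega)
      have h9 : (x₁ + 1) * (H + a + 2) = x₁ * H + a * x₁ + 2 * x₁ + H + a + 2 := by ring
      have h10 := Nat.zero_le (x₁ * H)
      omega
    have := hgH l
    omega
  have hunit : ∀ l, IsUnit (Zm Z (((t - g l : ℕ) : ℝ) / a)).det := fun l => hx₁ _ (by
    rw [lt_div_iff₀ ha0]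
    have := hx₁t l
    have h4 : ((a * x₁ : ℕ) : ℝ) < ((t - g l : ℕ) : ℝ) := by exact_mod_cast this
    push_cast at h4
    linarith)
  refine ⟨h2, hunit, ?_⟩
  intro B₀ _ _ hr C₀ hC₀ Ω Θ hΩΘ hΘΩ 𝒱 h𝒱 hgr hC₀𝒱 hΘ𝒱 K hK hKD 𝒩 hnil hgal hperf hsub T hT hcT
  have hcard : Fintype.card (I2 B₀ n k) = r + n * k := by
    rw [Fintype.card_sum, Fintype.card_prod, Fintype.card_fin, Fintype.card_fin, hr]
  set Nc : Matrix (Fin n) (Fin n) ℂ := N.map (Int.castRingHom ℂ) with hNc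
  set Ωt : Matrix (Fin n) (Fin n) ℂ := Ω * Pool.Agent.Y119.HY.E Nc (-((Real.log ((t : ℝ) / a) : ℝ) : ℂ)) with hΩt
  set Θt : Matrix (Fin n) (Fin n) ℂ := Pool.Agent.Y119.HY.E Nc ((Real.log ((t : ℝ) / a) : ℝ) : ℂ) * Θ with hΘt
  have hEE : Pool.Agent.Y119.HY.E Nc ((Real.log ((t : ℝ) / a) : ℝ) : ℂ) * Pool.Agent.Y119.HY.E Nc (-((Real.log ((t : ℝ) / a) : ℝ) : ℂ)) = 1 :=
    E_mul_neg hNn _
  have hEE' : Pool.Agent.Y119.HY.E Nc (-((Real.log ((t : ℝ) / a) : ℝ) : ℂ)) * Pool.Agent.Y119.HY.E Nc ((Real.log ((t : ℝ) / a) : ℝ) : ℂ) = 1 := by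
    have h4 := E_mul_neg hNn (-((Real.log ((t : ℝ) / a) : ℝ) : ℂ))
    rwa [neg_neg] at h4
  have hΘΩt : Θt * Ωt = 1 := by
    calc Θt * Ωt = Pool.Agent.Y119.HY.E Nc ((Real.log ((t : ℝ) / a) : ℝ) : ℂ) * (Θ * Ω) *
          Pool.Agent.Y119.HY.E Nc (-((Real.log ((t : ℝ) / a) : ℝ) : ℂ)) := by
          rw [hΘt, hΩt]
          simp only [Matrix.mul_assoc]
      _ = 1 := by rw [hΘΩ, Matrix.mul_one, hEE]
  have hΩΘt : Ωt * Θt = 1 := by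
    calc Ωt * Θt = Ω * (Pool.Agent.Y119.HY.E Nc (-((Real.log ((t : ℝ) / a) : ℝ) : ℂ)) *
          Pool.Agent.Y119.HY.E Nc ((Real.log ((t : ℝ) / a) : ℝ) : ℂ)) * Θ := by
          rw [hΘt, hΩt]
          simp only [Matrix.mul_assoc]
      _ = 1 := by rw [hEE', Matrix.mul_one, hΩΘ]
  set y : Fin k → Matrix (Fin n) (Fin n) ℂ := fun l => Pool.Agent.Y119.HY.E Nc (-((Real.log (1 - g l / t) : ℝ) : ℂ)) *
    Zm Z (((t - g l : ℕ) : ℝ) / a) with hy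
  have hEu : ∀ v : ℂ, IsUnit (Pool.Agent.Y119.HY.E Nc v).det := fun v =>
    Matrix.isUnit_det_of_right_inverse (E_mul_neg hNn v)
  have hyu : ∀ l, IsUnit (y l).det := fun l => by
    rw [hy]
    show IsUnit (Pool.Agent.Y119.HY.E Nc _ * Zm Z _).det
    rw [Matrix.det_mul]
    exact (hEu _).mul (hunit l)
  have hPL : (fun l => PL Ω Nc Z (((t - g l : ℕ) : ℝ) / a)) = fun l => Ωt * y l := by
    funext l
    have h10 : g l < t := by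
      have := hgH l
      omega
    have hpos1 : (0 : ℝ) < t := by
      have : 0 < t := by omega
      exact_mod_cast this
    have hpos2 : (0 : ℝ) < 1 - g l / t := by
      rw [sub_pos, div_lt_one hpos1]
      exact_mod_cast h10
    have hlog : Real.log (((t - g l : ℕ) : ℝ) / a) = Real.log ((t : ℝ) / a) + Real.log (1 - g l / t) := by
      rw [← Real.log_mul (div_pos hpos1 ha0).ne' hpos2.ne', Nat.cast_sub h10.le]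
      congr 1
      field_simp
    have e2 : Pool.Agent.Y119.HY.E Nc (-((Real.log (((t - g l : ℕ) : ℝ) / a) : ℝ) : ℂ)) =
        Pool.Agent.Y119.HY.E Nc (-((Real.log ((t : ℝ) / a) : ℝ) : ℂ)) *
          Pool.Agent.Y119.HY.E Nc (-((Real.log (1 - g l / t) : ℝ) : ℂ)) := by
      rw [← E_add hNn, hlog]
      congr 1
      push_cast
      ring
    unfold PL
    rw [e2, hΩt, hy]
    simp only [Matrix.mul_assoc]
  rw [hPL] at hcT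
  refine stable (fun K' => h𝒟 (I2 B₀ n k) hcard K') (countable_of_fin hK) hT hcT hnil hperf ?_
  intro N' hN' l τ d hd
  exact blkRelH hK hKD hnil hsub hΩΘt hΘΩt hC₀ h𝒱 hC₀𝒱 hΘ𝒱 hgr hyu (h3 Ω Θ hΘΩ 𝒩 hnil hgal) hT hcT (le_dlt hcard hd) N' hN'
    l τ

end Pool.Agent.T44.GA
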