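import Pool.Agent.T44.GA.Mn
import Pool.Agent.T44.GO.Sp
import Pool.Agent.Y119.HY.Fin2

/-!
# Hypergeometric families at real points
-/

set_option autoImplicit false

namespace Pool.Agent.T44.GA

section inf

open Pool.Agent.T44.GO Pool.Agent.Y119.HY Matrix

variable {n : ℕ} {Q : Polynomial ℚ} {γ : Fin n → ℚ} {d : ℕ} {aa : Fin n → ℤ}

/-- the entries of the solution -/
theorem Yi_numR (hd : d ≠ 0) (haa : ∀ j, (aa j : ℚ) = d * γ j) {t : ℝ} (ht0 : 0 < t) (i j : Fin n) :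
    Yi n Q γ ((1 / t ^ d : ℝ) : ℂ) i j =
      ∑' k : ℕ, (((-(γ j + k)) ^ (i : ℕ) * cc n Q (γ j) k : ℚ) : ℂ) * (t : ℂ) ^ (-(aa j + d * k) : ℤ) := by
  have htc : (t : ℂ) ≠ 0 := by exact_mod_cast ht0.ne'
  have h6 : Complex.exp ((γ j : ℂ) * Complex.log ((1 / t ^ d : ℝ) : ℂ)) = (t : ℂ) ^ (-aa j) := by
    have e1 : Complex.log (((1 / t ^ d : ℝ)) : ℂ) = -(d * Real.log t : ℝ) := by
      rw [← Complex.ofReal_log (by positivity), one_div, Real.log_inv, Real.log_pow]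
      push_cast
      ring
    have e2 : (γ j : ℂ) * -((d * Real.log t : ℝ) : ℂ) = ((-aa j : ℤ) : ℂ) * ((Real.log t : ℝ) : ℂ) := by
      have e3 : ((aa j : ℤ) : ℂ) = (d : ℂ) * (γ j : ℂ) := by
        have := congrArg (fun q : ℚ => (q : ℂ)) (haa j)
        push_cast at this
        exact_mod_cast this
      push_cast
      rw [e3]
      ring
    rw [e1, e2, Complex.exp_int_mul, ← Complex.ofReal_exp, Real.exp_log ht0]
  unfold Yi wp
  rw [mul_diagonal, h6]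
  show (∑' k : ℕ, gc n Q γ k i j * (((1 / t ^ d : ℝ)) : ℂ) ^ k) * _ = _
  rw [← tsum_mul_right]
  refine tsum_congr fun k => ?_
  have h7 : gc n Q γ k i j = (((-(γ j + k)) ^ (i : ℕ) * cc n Q (γ j) k : ℚ) : ℂ) := by
    unfold gc
    rw [cm_apply, cf_gm, Matrix.of_apply]
  rw [h7, mul_assoc]
  congr 1
  have h8 : (((1 / t ^ d : ℝ)) : ℂ) ^ k = (t : ℂ) ^ (-(d * k : ℕ) : ℤ) := by
    push_cast
    rw [one_div, inv_pow, ← pow_mul, _root_.zpow_neg]
    congr 1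
  rw [h8, ← zpow_add₀ htc]
  congr 1
  push_cast
  ring

end inf

section zero

open Pool.Agent.Y119.HY Pool.Agent.Y119.HZ

/-- the period matrix at `1 / x` -/
noncomputable def Yr (n : ℕ) (Q : Polynomial ℚ) (x : ℝ) : Matrix (Fin n) (Fin n) ℂ :=
  Hf (Hc n Q) (((1 / x : ℝ)) : ℂ) * Pool.Agent.Y119.HY.E (cm (Am n)) (-((Real.log x : ℝ) : ℂ))

theorem Yr_eq {n : ℕ} {Q : Polynomial ℚ} {x : ℝ} (hx : 0 < x) :
    Yr n Q x = Yf (cm (Am n)) (Hc n Q) (((1 / x : ℝ)) : ℂ) := by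
  unfold Yr Yf
  have h1 : Complex.log ((((1 / x : ℝ)) : ℂ)) = -((Real.log x : ℝ) : ℂ) := by
    rw [← Complex.ofReal_log (by positivity), one_div, Real.log_inv]
    push_cast
    rfl
  rw [h1]

/-- the period matrix preserves the form -/
theorem Yr_form {n : ℕ} {Q : Polynomial ℚ} (hQ : QD n Q) {x : ℝ} (hx : 1 < x) :
    (Yr n Q x).transpose * cm (Jm n Q) * Yr n Q x = cm (Jm n Q) := by
  have hx0 : 0 < x := by linarith
  rw [Yr_eq hx0]
  refine Pool.Agent.Y119.HY.self_pair Pool.Agent.Y119.HY.Ac_nil Pool.Agent.Y119.HY.Jc_rel ?_ (Pool.Agent.Y119.HY.sol_c hQ)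
    (Pool.Agent.Y119.HY.real_mem_Lens (by positivity) (by rw [div_lt_one hx0]; exact hx))
  rw [← Pool.Agent.Y119.HY.cm_transpose, ← Pool.Agent.Y119.HY.cm_mul, ← Pool.Agent.Y119.HY.cm_mul,
    ← Pool.Agent.Y119.HY.cm_add, Bm_rel hQ, Pool.Agent.Y119.HY.cm_zero]

end zero

end Pool.Agent.T44.GA
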