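import Pool.Agent.Y118.UL.Liv

/-!
# Scaling of the variable: `f(z)` is replaced by `f(a z)`, uniformly in `a`
-/

set_option autoImplicit false

open PowerSeries Pool.Agent.Y113 Pool.Agent.Y120.GF Pool.Agent.Y120.GH

namespace Pool.Agent.T44.GA

/-- the series `f(a z)` -/
noncomputable def sc (a : ℕ) : ℚ⟦X⟧ →+* ℚ⟦X⟧ := rescale (a : ℚ)

/-- the polynomial `P(a z)` -/
noncomputable def scp (a : ℕ) (P : Polynomial ℤ) : Polynomial ℤ := P.comp (Polynomial.C (a : ℤ) * Polynomial.X)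

theorem coeff_sc (a : ℕ) (f : ℚ⟦X⟧) (m : ℕ) : coeff m (sc a f) = (a : ℚ) ^ m * coeff m f := coeff_rescale _ _ _

theorem coeff_scp (a : ℕ) (P : Polynomial ℤ) (l : ℕ) : (scp a P).coeff l = (a : ℤ) ^ l * P.coeff l := by
  unfold scp
  rw [Polynomial.comp_C_mul_X_coeff, mul_comm]

theorem deg_scp (a : ℕ) (P : Polynomial ℤ) : (scp a P).natDegree ≤ P.natDegree := by
  rw [Polynomial.natDegree_le_iff_coeff_eq_zero]
  intro N hN
  rw [coeff_scp, Polynomial.coeff_eq_zero_of_natDegree_lt hN, mul_zero]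

theorem ps_scp (a : ℕ) (P : Polynomial ℤ) : ps (scp a P) = sc a (ps P) := by
  ext m
  rw [coeff_sc]
  unfold ps
  rw [Polynomial.coeff_coe, Polynomial.coeff_coe, Polynomial.coeff_map, Polynomial.coeff_map, coeff_scp]
  simp

theorem hd_sc (a : ℕ) (s : ℕ) (f : ℚ⟦X⟧) : hd s (sc a f) = (a : ℚ⟦X⟧) ^ s * sc a (hd s f) := by
  ext m
  have h1 : ((a : ℚ⟦X⟧)) ^ s = C ((a : ℚ) ^ s) := by
    rw [map_pow]
    simp
  rw [h1, coeff_C_mul, coeff_sc]
  unfold hd
  rw [coeff_mk, coeff_mk, coeff_sc, pow_add]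
  ring

/-- G-systems -/
theorem gsys_sc {ι : Type} [Fintype ι] {q : ℕ} {C : ℝ} {T : Polynomial ℤ} {y : ι → ℚ⟦X⟧} (h : GSys q C T y) {a : ℕ}
    (ha : 1 ≤ a) : GSys q ((a : ℝ) ^ (q + 1) * C) (scp a T) (fun i => sc a (y i)) := by
  have hC := h.one_le
  have hC0 : 0 < C := by linarith
  have ha1 : (1 : ℝ) ≤ a := by exact_mod_cast ha
  have ha0 : (0 : ℝ) < a := by linarith
  have hq1 : (1 : ℝ) ≤ (a : ℝ) ^ (q + 1) := one_le_pow₀ ha1
  have hCK : C ≤ (a : ℝ) ^ (q + 1) * C := le_mul_of_one_le_left hC0.le hq1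
  have haK : (a : ℝ) * C ≤ (a : ℝ) ^ (q + 1) * C := mul_le_mul_of_nonneg_right (le_self_pow₀ ha1 (by omega)) hC0.le
  refine ⟨hC.trans hCK, (deg_scp a T).trans h.degT, fun l => ?_, fun i m => ?_, fun m => ?_, fun k => ?_⟩
  · rw [coeff_scp]
    rcases Nat.lt_or_ge q l with hl | hl
    · rw [Polynomial.coeff_eq_zero_of_natDegree_lt (lt_of_le_of_lt h.degT hl), mul_zero]
      simp only [Int.cast_zero, abs_zero]
      positivity
    · push_cast
      rw [abs_mul, abs_of_nonneg (by positivity)]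
      have h1 : (a : ℝ) ^ l ≤ (a : ℝ) ^ (q + 1) := pow_le_pow_right₀ ha1 (by omega)
      exact mul_le_mul h1 (h.sizeT l) (abs_nonneg _) (by positivity)
  · rw [coeff_sc]
    push_cast
    rw [abs_mul, abs_of_nonneg (by positivity)]
    calc (a : ℝ) ^ m * |((coeff m (y i) : ℚ) : ℝ)| ≤ (a : ℝ) ^ (m + 1) * C ^ (m + 1) :=
          mul_le_mul (pow_le_pow_right₀ ha1 (by omega)) (h.size i m) (abs_nonneg _) (by positivity)
      _ = (a * C) ^ (m + 1) := by rw [mul_pow]
      _ ≤ _ := pow_le_pow_left₀ (by positivity) haK _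
  · obtain ⟨d, hd0, hdC, hd'⟩ := h.den m
    refine ⟨d, hd0, hdC.trans (pow_le_pow_left₀ hC0.le hCK _), fun i j hj => ?_⟩
    obtain ⟨z, hz⟩ := hd' i j hj
    refine ⟨(a : ℤ) ^ j * z, ?_⟩
    rw [coeff_sc]
    push_cast
    rw [← hz]
    ring
  · obtain ⟨d, hd0, hdC, hd'⟩ := h.der k
    refine ⟨d, hd0, hdC.trans (pow_le_pow_left₀ hC0.le hCK _), fun s hs => ?_⟩
    obtain ⟨G, g1, g2, g3⟩ := hd' s hs
    refine ⟨fun i j => Polynomial.C ((a : ℤ) ^ s) * scp a (G i j), fun i j => ?_, fun i j l => ?_, fun i => ?_⟩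
    · exact (Polynomial.natDegree_C_mul_le _ _).trans ((deg_scp a _).trans (g1 i j))
    · rw [Polynomial.coeff_C_mul, coeff_scp]
      rcases Nat.lt_or_ge (q * s) l with hl | hl
      · rw [Polynomial.coeff_eq_zero_of_natDegree_lt (lt_of_le_of_lt (g1 i j) hl), mul_zero, mul_zero]
        simp only [Int.cast_zero, abs_zero]
        positivity
      · push_cast
        rw [← mul_assoc, ← pow_add, abs_mul, abs_of_nonneg (by positivity), mul_pow, ← pow_mul]
        refine mul_le_mul (pow_le_pow_right₀ ha1 ?_) (g2 i j l) (abs_nonneg _) (by positivity)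
        calc s + l ≤ s + q * s := by omega
          _ = (q + 1) * s := by ring
          _ ≤ (q + 1) * (k + 1) := Nat.mul_le_mul_left _ (by omega)
    · have h1 := congrArg (sc a) (g3 i)
      rw [map_mul, map_mul, map_pow, map_natCast, map_sum, ← ps_scp] at h1
      rw [hd_sc]
      calc (d : ℚ⟦X⟧) * (ps (scp a T) ^ s * ((a : ℚ⟦X⟧) ^ s * sc a (hd s (y i)))) =
          (a : ℚ⟦X⟧) ^ s * ((d : ℚ⟦X⟧) * (ps (scp a T) ^ s * sc a (hd s (y i)))) := by ring
        _ = _ := by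
          rw [h1, Finset.mul_sum]
          refine Finset.sum_congr rfl fun j _ => ?_
          rw [map_mul, ← ps_scp, ps_mul, ps_C]
          push_cast
          ring

/-- values -/
theorem ev_sc (a : ℕ) (f : ℚ⟦X⟧) (t : ℝ) : ev t (sc a f) = ev (t / a) f := by
  unfold ev
  refine tsum_congr fun m => ?_
  rw [coeff_sc]
  push_cast
  rw [one_div, one_div, inv_div, div_eq_mul_inv, mul_pow]
  ring

/-- complex functions outside of a disc -/
theorem ou_sc (a : ℕ) (f : ℚ⟦X⟧) (z : ℂ) : ou (cx (sc a f)) z = ou (cx f) (z / a) := by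
  unfold ou inn
  refine tsum_congr fun m => ?_
  rw [coeff_cx, coeff_cx, coeff_sc]
  push_cast
  rw [one_div, one_div, inv_div, div_eq_mul_inv, mul_pow]
  ring

theorem cx_sc_mem {a : ℕ} (ha : 1 ≤ a) {f : ℚ⟦X⟧} {ρ : ℝ} (h : cx f ∈ Cw ρ) : cx (sc a f) ∈ Cw (a * ρ) := by
  intro r hr hrρ
  have h1 := h (r * a) (by positivity) (by rw [mul_assoc]; exact hrρ)
  refine h1.congr fun m => ?_
  rw [norm_coeff_cx, norm_coeff_cx, coeff_sc]
  push_cast
  rw [abs_mul, abs_of_nonneg (show (0 : ℝ) ≤ (a : ℝ) ^ m by positivity), mul_pow]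
  ring

open Filter Topology Metric in
theorem disc_sc {κ : Type} [Fintype κ] {a : ℕ} (ha : 1 ≤ a) {ρ ρ' : ℝ} {y : κ → ℚ⟦X⟧} (h : Disc ρ ρ' fun i => cx (y i)) :
    Disc (a * ρ) (a * ρ') fun i => cx (sc a (y i)) := by
  intro p hp hp' hpim c hc hrel i
  have ha0 : (0 : ℝ) < a := by exact_mod_cast ha
  have hac : (a : ℂ) ≠ 0 := by exact_mod_cast (by omega : a ≠ 0)
  have hna : ‖p / (a : ℂ)‖ = ‖p‖ / a := by
    rw [norm_div, Complex.norm_natCast]
  have hpa : (a : ℂ) * (p / a) = p := mul_div_cancel₀ p hac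
  have h1 := h (p / a) (by
      rw [hna, lt_div_iff₀ ha0]
      linarith) (by
      rw [hna, div_lt_iff₀ ha0]
      linarith) (by
      have h2 : (p / (a : ℂ)).im = p.im / a := by
        rw [Complex.div_natCast_im]
      rw [h2]
      positivity) (fun i z => c i (a * z)) (fun i z hz => by
      have h2 : AnalyticAt ℂ (c i) (a * z) := hc i _ (by
        rw [mem_ball, dist_zero_right, norm_mul, Complex.norm_natCast]
        rw [mem_ball, dist_zero_right] at hz
        exact mul_lt_mul_of_pos_left hz ha0)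
      exact AnalyticAt.fun_comp (g := c i) (f := fun z : ℂ => (a : ℂ) * z) h2 (analyticAt_const.mul analyticAt_id)) (by
      have h2 : Tendsto (fun z : ℂ => (a : ℂ) * z) (𝓝 (p / a)) (𝓝 p) := by
        have h3 : ContinuousAt (fun z : ℂ => (a : ℂ) * z) (p / a) := by fun_prop
        have h4 := h3.tendsto
        rwa [hpa] at h4
      filter_upwards [h2.eventually hrel] with z hz
      rw [← hz]
      refine Finset.sum_congr rfl fun i _ => ?_
      rw [ou_sc, mul_div_cancel_left₀ _ hac]) i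
  have h2 : Tendsto (fun z : ℂ => z / (a : ℂ)) (𝓝 p) (𝓝 (p / a)) := by
    have h3 : ContinuousAt (fun z : ℂ => z / (a : ℂ)) p := by fun_prop
    exact h3.tendsto
  filter_upwards [h2.eventually h1] with z hz
  rwa [mul_div_cancel₀ z hac] at hz

end Pool.Agent.T44.GA
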