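import Pool.Agent.T44.GA.Fa
import Pool.Agent.T44.GL.Vl

/-!
# Independence of the values of the words of a basis and of the powers of the logarithms at the points `a / (t - g)`
-/

set_option autoImplicit false

open PowerSeries Pool.Agent.Y113 Pool.Agent.Y120.GF Pool.Agent.Y120.GH Pool.Agent.Y124.TL

namespace Pool.Agent.T44.GA

variable {r : ℕ}

theorem size_sc {f : ℚ⟦X⟧} {C : ℝ} (hC : 1 ≤ C) (h : ∀ m, |((coeff m f : ℚ) : ℝ)| ≤ C ^ (m + 1)) {a : ℕ} (ha : 1 ≤ a)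
    (m : ℕ) : |((coeff m (sc a f) : ℚ) : ℝ)| ≤ (a * C) ^ (m + 1) := by
  have ha1 : (1 : ℝ) ≤ a := by exact_mod_cast ha
  rw [coeff_sc]
  push_cast
  rw [abs_mul, abs_of_nonneg (show (0 : ℝ) ≤ (a : ℝ) ^ m by positivity), mul_pow]
  exact mul_le_mul (pow_le_pow_right₀ ha1 (by omega)) (h m) (abs_nonneg _) (by positivity)

/-- **the base** -/
theorem base_wordsA {T : Polynomial ℤ} {A : Fin r → Fin r → Polynomial ℤ} {h : Fin r → ℚ⟦X⟧} (hF : GF T A h) :
    ∃ R : ℕ, ∀ (δ : ℕ) (B₀ : Finset (Fin δ → Option (Fin r))), (fun _ => none) ∈ B₀ →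
      LinearIndependent (Polynomial ℚ) (fun b : B₀ => yw h b.1) → ∀ k : ℕ, ∃ E : ℕ, ∀ H t a : ℕ, 1 ≤ a →
        (H + a + 2) ^ E ≤ t →
        H < t ∧ ∀ g : Fin k → ℕ, SepR (a * R) g → (∀ l, g l ≤ H) →
          LinearIndependent ℚ (fun b : Fin k → B₀ × Fin (δ + 1) => ∏ l, (yw (hv h (((t - g l : ℕ) : ℝ) / a)) (b l).1.1 *
            (((Real.log (1 - g l / t) : ℝ) : ℂ)) ^ ((b l).2 : ℕ))) := by
  classical
  obtain ⟨q₁, C₁, hG₁⟩ := hF.gs
  obtain ⟨R, hR⟩ := famA hF.ne hF.ode hG₁ hF.qu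
  refine ⟨R, fun δ B₀ h0 hli k => ?_⟩
  obtain ⟨B, hB, ⟨C, hC, hCw⟩, hE⟩ := hR δ B₀ h0 (by
    intro g hg
    rw [← Finset.sum_coe_sort B₀ (fun i => (g i : ℚ⟦X⟧) * yw h i)] at hg
    have h1 := (Fintype.linearIndependent_iff.1 hli) (fun b => g b.1) (by
      rw [← hg]
      refine Finset.sum_congr rfl fun s _ => ?_
      rw [Pool.Agent.Y120.GF.psmul])
    intro i hi
    exact h1 ⟨i, hi⟩)
  obtain ⟨E, hE⟩ := hE k
  obtain ⟨C₀, hC₀, hC₀h⟩ := hF.size'
  obtain ⟨C₃, hC₃⟩ := exists_nat_ge (C + C₀)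
  refine ⟨E + (C₃ + 1), ?_⟩
  intro H t a ha hHt
  have ha0 : (0 : ℝ) < a := by exact_mod_cast ha
  have hp : 0 < (H + a + 2) ^ (C₃ + 1) := by positivity
  have h1 : (H + a + 2) ^ E ≤ t := (Nat.pow_le_pow_right (by omega) (by omega)).trans hHt
  have hHt' : H + a * C₃ < t := by
    have h1 : (H + a + 2) ^ (C₃ + 1) ≤ t := (Nat.pow_le_pow_right (by omega) (by omega)).trans hHt
    have h2 : C₃ < 2 ^ C₃ := Nat.lt_two_pow_self
    have h3 : 2 ^ C₃ ≤ (H + a + 2) ^ C₃ := Nat.pow_le_pow_left (by omega) _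
    have h4 : (C₃ + 1) * (H + a + 2) ≤ (H + a + 2) ^ (C₃ + 1) := by
      rw [pow_succ]
      exact Nat.mul_le_mul_right _ (by omega)
    have h5 : H + a * C₃ < (C₃ + 1) * (H + a + 2) := by nlinarith [Nat.zero_le (C₃ * H)]
    omega
  refine ⟨by
    have := Nat.zero_le (a * C₃)
    omega, fun g hg hgH => ?_⟩
  have hbase := hE H t a ha h1 g hg hgH
  have hbase2 : LinearIndependent ℚ (fun b : Fin k → B × Fin (δ + 1) =>
      ((∏ l, ev (t : ℝ) (Fg (δ + 1) (fun β : B => sc a (yw h β.1)) (g l) (b l)) : ℝ) : ℂ)) := by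
    have h2 := hbase.map' ((Algebra.linearMap ℝ ℂ).restrictScalars ℚ) (by
      rw [LinearMap.ker_eq_bot]
      intro x y hxy
      exact Complex.ofReal_injective hxy)
    exact h2
  have ha1 : (1 : ℝ) ≤ a := by exact_mod_cast ha
  have hval : ∀ b : Fin k → B × Fin (δ + 1),
      ((∏ l, ev (t : ℝ) (Fg (δ + 1) (fun β : B => sc a (yw h β.1)) (g l) (b l)) : ℝ) : ℂ) =
      (∏ l, (1 / (((b l).2 : ℕ).factorial : ℚ)) : ℚ) • ∏ l, (yw (hv h (((t - g l : ℕ) : ℝ) / a)) (b l).1.1 *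
        (((Real.log (1 - g l / t) : ℝ) : ℂ)) ^ ((b l).2 : ℕ)) := by
    intro b
    rw [Rat.smul_def]
    push_cast
    rw [← Finset.prod_mul_distrib]
    refine Finset.prod_congr rfl fun l _ => ?_
    have h4 : g l + a * C₃ < t := by
      have := hgH l
      omega
    have h5 : ((g l : ℝ) + a * C₃) < t := by exact_mod_cast h4
    have h55 : (a : ℝ) * (C + C₀) ≤ a * C₃ := mul_le_mul_of_nonneg_left hC₃ ha0.le
    have h56 : (0 : ℝ) ≤ a * C₀ := by positivity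
    have h57 : (0 : ℝ) ≤ a * C := by positivity
    have h3 : ((g l : ℕ) : ℝ) + a * C < t := by linarith
    have h6 := Pool.Agent.Y124.TD.ev_Fg (n := δ) (C := a * C) (by nlinarith)
      (fun (β : B) => size_sc hC (hCw β.1) ha) h3 (b l)
    rw [h6]
    have h7 : ((ev ((t - g l : ℕ) : ℝ) (sc a (yw h (b l).1.1)) : ℝ) : ℂ) =
        yw (hv h (((t - g l : ℕ) : ℝ) / a)) (b l).1.1 := by
      rw [ev_sc]
      refine ev_yw hC₀ hC₀h _ ?_
      have h8 : g l ≤ t := by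
        have := Nat.zero_le (a * C₃)
        omega
      rw [lt_div_iff₀ ha0, Nat.cast_sub h8]
      linarith
    rw [h7]
    push_cast
    ring
  have hbase3 : LinearIndependent ℚ (fun b : Fin k → B × Fin (δ + 1) =>
      ∏ l, (yw (hv h (((t - g l : ℕ) : ℝ) / a)) (b l).1.1 *
        (((Real.log (1 - g l / t) : ℝ) : ℂ)) ^ ((b l).2 : ℕ))) := by
    have hu : ∀ b : Fin k → B × Fin (δ + 1), IsUnit (∏ l, (1 / (((b l).2 : ℕ).factorial : ℚ)) : ℚ) := by
      intro b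
      rw [isUnit_iff_ne_zero, Finset.prod_ne_zero_iff]
      intro l _
      exact one_div_ne_zero (by exact_mod_cast Nat.factorial_ne_zero _)
    choose u hu using hu
    rw [← LinearIndependent.units_smul_iff (w := u)]
    convert hbase2 using 1
    funext b
    rw [hval b, ← hu b]
    rfl
  -- restriction
  exact hbase3.comp (fun (b : Fin k → B₀ × Fin (δ + 1)) l => (⟨(b l).1.1, hB (b l).1.2⟩, (b l).2)) (by
    intro b b' hbb
    funext l
    have h1 := congrFun hbb l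
    have h2 := congrArg (fun p : B × Fin (δ + 1) => (p.1 : Fin δ → Option (Fin r))) h1
    have h3 := congrArg (fun p : B × Fin (δ + 1) => p.2) h1
    exact Prod.ext (Subtype.ext h2) h3)

end Pool.Agent.T44.GA
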